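import Pool.Agent.H44R2.Stk.Defs
import Pool.Agent.H143R2.Stk.T1
import Pool.Agent.H409R2.Stk.T2

set_option autoImplicit false

namespace Pool.Agent.H682R2.Stk

open Finset
open Pool.Agent.H44R2.Stk

/-- The statements of T1 and T2 that are used here. -/
structure Base : Prop where
  perm : ∀ σ : List ℕ, (srt σ).Perm σ
  single : ∀ m : ℕ, srt [m] = [m] ∧ des (srt [m]) = 0
  left : ∀ (L : List ℕ) (m : ℕ), (∀ a ∈ L, a < m) → L ≠ [] →
    des (srt (L ++ m :: [])) = des (srt L) ∧ hd (srt (L ++ m :: [])) = hd (srt L)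
  right : ∀ (R : List ℕ) (m : ℕ), (∀ a ∈ R, a < m) → R ≠ [] →
    des (srt ([] ++ m :: R)) = des (srt R) ∧ hd (srt ([] ++ m :: R)) = hd (srt R)
  both : ∀ (L R : List ℕ) (m : ℕ), (∀ a ∈ L, a < m) → (∀ a ∈ R, a < m) → L ≠ [] → R ≠ [] →
    des (srt (L ++ m :: R)) = des (srt L) + des (srt R) +
      (if ∃ a ∈ L, hd (srt R) < a then 1 else 0) ∧
    hd (srt (L ++ m :: R)) = hd (srt L)
  mem : ∀ (S : Finset ℕ) (l : List ℕ), l ∈ wds S ↔ l.Nodup ∧ l.toFinset = S
  split : ∀ (S : Finset ℕ) (m : ℕ), m ∈ S → (∀ a ∈ S, a ≤ m) → ∀ g : List ℕ → ℂ,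
    ∑ π ∈ wds S, g π = ∑ T ∈ (S.erase m).powerset, ∑ L ∈ wds T,
      ∑ R ∈ wds ((S.erase m) \ T), g (L ++ m :: R)

lemma hd_mem {t : List ℕ} (h : t ≠ []) : hd t ∈ t := by
  cases t with
  | nil => exact absurd rfl h
  | cons a t => simp [hd]

lemma wds_ne_nil (B : Base) {T : Finset ℕ} (hT : T ≠ ∅) {l : List ℕ} (hl : l ∈ wds T) :
    l ≠ [] := by
  rintro rfl
  exact hT ((B.mem T []).1 hl).2.symm

lemma mem_of_mem_wds (B : Base) {T : Finset ℕ} {l : List ℕ} (hl : l ∈ wds T) {a : ℕ} :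
    a ∈ l ↔ a ∈ T := by
  rw [← ((B.mem T l).1 hl).2, List.mem_toFinset]

lemma hd_srt_mem (B : Base) {T : Finset ℕ} (hT : T ≠ ∅) {l : List ℕ} (hl : l ∈ wds T) :
    hd (srt l) ∈ T := by
  have h0 := wds_ne_nil B hT hl
  have hp := B.perm l
  have h1 : srt l ≠ [] := by
    intro h
    rw [h] at hp
    exact h0 hp.nil_eq.symm
  exact (mem_of_mem_wds B hl).1 (hp.mem_iff.1 (hd_mem h1))

lemma wds_empty (B : Base) : wds ∅ = {[]} := by
  ext l
  rw [B.mem, mem_singleton]
  constructor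
  · rintro ⟨_, h⟩
    exact List.toFinset_eq_empty_iff l |>.1 h
  · rintro rfl
    simp

lemma ch_succ (y : ℂ) (k : ℕ) (S : Finset ℕ) : ch y (k + 1) S =
    ∑ T ∈ S.powerset, ∑ π ∈ wds T,
      if T ≠ ∅ ∧ ∀ z ∈ S \ T, z < hd (srt π) then y ^ des (srt π) * ch y k (S \ T) else 0 := by
  rw [ch]

lemma ch_zero (y : ℂ) (S : Finset ℕ) : ch y 0 S = if S = ∅ then 1 else 0 := by
  rw [ch]

/-- The value of `ch` as a sum over nonempty first words. -/
lemma ch_succ' (y : ℂ) (k : ℕ) (S : Finset ℕ) : ch y (k + 1) S =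
    ∑ T ∈ S.powerset, if T = ∅ then 0 else ∑ π ∈ wds T,
      if ∀ z ∈ S \ T, z < hd (srt π) then y ^ des (srt π) * ch y k (S \ T) else 0 := by
  rw [ch_succ]
  refine sum_congr rfl fun T _ => ?_
  by_cases hT : T = ∅
  · simp [hT]
  · simp [hT]

lemma ch_one_empty (y : ℂ) (k : ℕ) : ch y (k + 1) ∅ = 0 := by
  rw [ch_succ']
  simp

theorem ch_one' (y : ℂ) (S : Finset ℕ) (hS : S ≠ ∅) :
    ch y 1 S = ∑ π ∈ wds S, y ^ des (srt π) := by
  rw [ch_succ', sum_eq_single S]
  · rw [if_neg hS]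
    refine sum_congr rfl fun π _ => ?_
    simp [ch_zero]
  · intro T hT hne
    rw [mem_powerset] at hT
    have : S \ T ≠ ∅ := by
      intro h
      exact hne (subset_antisymm hT (sdiff_eq_empty_iff_subset.1 h))
    split_ifs
    · rfl
    · refine sum_eq_zero fun π _ => ?_
      rw [ch_zero, if_neg this]
      simp
  · intro h
    exact absurd (mem_powerset_self S) h

/-- Reindexing of pairs of nested subsets. -/
lemma reindex (A : Finset ℕ) (f : Finset ℕ → Finset ℕ → ℂ) :
    ∑ T0 ∈ A.powerset, ∑ T ∈ T0.powerset, f T (T0 \ T) =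
      ∑ U ∈ A.powerset, ∑ T ∈ (A \ U).powerset, f T U := by
  rw [sum_sigma', sum_sigma']
  refine sum_bij' (fun x _ => ⟨x.1 \ x.2, x.2⟩) (fun x _ => ⟨x.2 ∪ x.1, x.2⟩) ?_ ?_ ?_ ?_ ?_
  · rintro ⟨T0, T⟩ h
    simp only [mem_sigma, mem_powerset] at h ⊢
    refine ⟨sdiff_subset.trans h.1, fun a ha => ?_⟩
    simp only [mem_sdiff, not_and, not_not]
    exact ⟨h.1 (h.2 ha), fun _ => ha⟩
  · rintro ⟨U, T⟩ h
    simp only [mem_sigma, mem_powerset] at h ⊢
    exact ⟨union_subset (h.2.trans sdiff_subset) h.1, subset_union_left⟩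
  · rintro ⟨T0, T⟩ h
    simp only [mem_sigma, mem_powerset] at h ⊢
    simp [union_sdiff_of_subset h.2]
  · rintro ⟨U, T⟩ h
    simp only [mem_sigma, mem_powerset] at h ⊢
    have : Disjoint T U := by
      rw [disjoint_left]
      intro a ha
      exact (mem_sdiff.1 (h.2 ha)).2
    simp [union_sdiff_cancel_left this]
  · rintro ⟨T0, T⟩ h
    rfl

/-- The inner term after the reindexing. -/
noncomputable def HH (y : ℂ) (k m : ℕ) (A T U : Finset ℕ) : ℂ :=
  ∑ L ∈ wds T, ∑ R ∈ wds U, if ∀ z ∈ (A \ U) \ T, z < hd (srt (L ++ m :: R)) then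
    y ^ des (srt (L ++ m :: R)) * ch y k ((A \ U) \ T) else 0

lemma step1 (B : Base) (y : ℂ) (k : ℕ) (A : Finset ℕ) (m : ℕ) (hA : ∀ a ∈ A, a < m) :
    ch y (k + 1) (insert m A) = ∑ U ∈ A.powerset, ∑ T ∈ (A \ U).powerset, HH y k m A T U := by
  have hmA : m ∉ A := fun h => lt_irrefl _ (hA m h)
  rw [← reindex A (fun T U => HH y k m A T U), ch_succ', sum_powerset_insert hmA]
  have h1 : ∑ T ∈ A.powerset, (if T = ∅ then 0 else ∑ π ∈ wds T,
      if ∀ z ∈ insert m A \ T, z < hd (srt π) then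
        y ^ des (srt π) * ch y k (insert m A \ T) else 0) = 0 := by
    refine sum_eq_zero fun T hT => ?_
    rw [mem_powerset] at hT
    split_ifs with h0
    · rfl
    · refine sum_eq_zero fun π hπ => ?_
      rw [if_neg]
      intro h
      have h2 : hd (srt π) ∈ T := hd_srt_mem B h0 hπ
      have h3 := h m (mem_sdiff.2 ⟨mem_insert_self _ _, fun h => hmA (hT h)⟩)
      have h4 := hA _ (hT h2)
      omega
  rw [h1, zero_add]
  refine sum_congr rfl fun T0 hT0 => ?_
  rw [mem_powerset] at hT0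
  have hmT0 : m ∉ T0 := fun h => hmA (hT0 h)
  rw [if_neg (insert_ne_empty _ _)]
  have hsd : insert m A \ insert m T0 = A \ T0 := by
    ext a
    simp only [mem_sdiff, mem_insert, not_or]
    constructor
    · rintro ⟨h | h, h1, h2⟩
      · exact absurd h h1
      · exact ⟨h, h2⟩
    · rintro ⟨h1, h2⟩
      exact ⟨Or.inr h1, fun h => hmA (h ▸ h1), h2⟩
  rw [hsd, B.split (insert m T0) m (mem_insert_self _ _), erase_insert hmT0]
  · refine sum_congr rfl fun T hT => ?_
    rw [mem_powerset] at hT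
    have : (A \ (T0 \ T)) \ T = A \ T0 := by
      ext a
      simp only [mem_sdiff, not_and, not_not]
      constructor
      · rintro ⟨⟨h1, h2⟩, h3⟩
        exact ⟨h1, fun h => h3 (h2 h)⟩
      · rintro ⟨h1, h2⟩
        exact ⟨⟨h1, fun h => absurd h h2⟩, fun h => h2 (hT h)⟩
    rw [HH, this]
  · intro a ha
    rcases mem_insert.1 ha with h | h
    · exact h.le
    · exact (hA a (hT0 h)).le

/-- The terms with `U = ∅`. -/
lemma step2 (B : Base) (y : ℂ) (k : ℕ) (A : Finset ℕ) (m : ℕ) (hA : ∀ a ∈ A, a < m) :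
    ∑ T ∈ (A \ ∅).powerset, HH y k m A T ∅ = ch y k A + ch y (k + 1) A := by
  rw [sdiff_empty, ch_succ']
  have h0 : ch y k A = ∑ T ∈ A.powerset, if T = ∅ then ch y k A else 0 := by
    rw [sum_ite_eq' ]
    simp
  rw [h0, ← sum_add_distrib]
  refine sum_congr rfl fun T hT => ?_
  rw [mem_powerset] at hT
  rw [HH, sdiff_empty, wds_empty B]
  simp only [sum_singleton]
  by_cases h : T = ∅
  · rw [if_pos h, if_pos h, h, wds_empty B, sum_singleton, add_zero, sdiff_empty]
    rw [List.nil_append, (B.single m).2, (B.single m).1, pow_zero, one_mul, if_pos]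
    intro z hz
    exact hA z hz
  · rw [if_neg h, if_neg h, zero_add]
    refine sum_congr rfl fun L hL => ?_
    have hLm : ∀ a ∈ L, a < m := fun a ha => hA a (hT ((mem_of_mem_wds B hL).1 ha))
    rw [(B.left L m hLm (wds_ne_nil B h hL)).1, (B.left L m hLm (wds_ne_nil B h hL)).2]

/-- The terms with `U ≠ ∅`. -/
lemma step3 (B : Base) (y : ℂ) (k : ℕ) (A : Finset ℕ) (m : ℕ) (hA : ∀ a ∈ A, a < m)
    (U : Finset ℕ) (hU : U ⊆ A) (hU0 : U ≠ ∅) :
    ∑ T ∈ (A \ U).powerset, HH y k m A T U =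
      (∑ R ∈ wds U, if ∀ z ∈ A \ U, z < hd (srt R) then y ^ des (srt R) * ch y k (A \ U) else 0)
      + y * (ch y 1 U * ch y (k + 1) (A \ U))
      + (1 - y) * ∑ R ∈ wds U, if ∀ z ∈ A \ U, z < hd (srt R) then
          y ^ des (srt R) * ch y (k + 1) (A \ U) else 0 := by
  rw [ch_one' y U hU0]
  have e1 : ∑ R ∈ wds U, (if ∀ z ∈ A \ U, z < hd (srt R) then
        y ^ des (srt R) * ch y k (A \ U) else 0) =
      ∑ T ∈ (A \ U).powerset, if T = ∅ then (∑ R ∈ wds U, if ∀ z ∈ A \ U, z < hd (srt R) then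
        y ^ des (srt R) * ch y k (A \ U) else 0) else 0 := by
    rw [sum_ite_eq']
    simp
  have e2 : y * ((∑ R ∈ wds U, y ^ des (srt R)) * ch y (k + 1) (A \ U)) =
      ∑ T ∈ (A \ U).powerset, if T = ∅ then 0 else
        ∑ L ∈ wds T, ∑ R ∈ wds U, if ∀ z ∈ (A \ U) \ T, z < hd (srt L) then
          y * y ^ des (srt R) * (y ^ des (srt L) * ch y k ((A \ U) \ T)) else 0 := by
    rw [ch_succ', mul_sum, mul_sum]
    refine sum_congr rfl fun T _ => ?_
    by_cases h : T = ∅
    · rw [if_pos h, if_pos h, mul_zero, mul_zero]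
    · rw [if_neg h, if_neg h, mul_sum, mul_sum]
      refine sum_congr rfl fun L _ => ?_
      split_ifs
      · rw [sum_mul, mul_sum]
        refine sum_congr rfl fun R _ => ?_
        ring
      · simp
  have e3 : (1 - y) * ∑ R ∈ wds U, (if ∀ z ∈ A \ U, z < hd (srt R) then
          y ^ des (srt R) * ch y (k + 1) (A \ U) else 0) =
      ∑ T ∈ (A \ U).powerset, if T = ∅ then 0 else
        ∑ L ∈ wds T, ∑ R ∈ wds U, if (∀ z ∈ A \ U, z < hd (srt R)) ∧
            (∀ z ∈ (A \ U) \ T, z < hd (srt L)) then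
          (1 - y) * y ^ des (srt R) * (y ^ des (srt L) * ch y k ((A \ U) \ T)) else 0 := by
    have : ∀ T ∈ (A \ U).powerset, (if T = ∅ then (0 : ℂ) else
        ∑ L ∈ wds T, ∑ R ∈ wds U, if (∀ z ∈ A \ U, z < hd (srt R)) ∧
            (∀ z ∈ (A \ U) \ T, z < hd (srt L)) then
          (1 - y) * y ^ des (srt R) * (y ^ des (srt L) * ch y k ((A \ U) \ T)) else 0) =
        ∑ R ∈ wds U, if (∀ z ∈ A \ U, z < hd (srt R)) then (1 - y) * y ^ des (srt R) *
          (if T = ∅ then 0 else ∑ L ∈ wds T, if ∀ z ∈ (A \ U) \ T, z < hd (srt L) then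
            y ^ des (srt L) * ch y k ((A \ U) \ T) else 0) else 0 := by
      intro T _
      by_cases h : T = ∅
      · simp [h]
      · rw [if_neg h, sum_comm]
        refine sum_congr rfl fun R _ => ?_
        rw [if_neg h]
        split_ifs with h1
        · rw [mul_sum]
          refine sum_congr rfl fun L _ => ?_
          by_cases h2 : ∀ z ∈ (A \ U) \ T, z < hd (srt L)
          · rw [if_pos ⟨h1, h2⟩, if_pos h2]
          · rw [if_neg (fun h => h2 h.2), if_neg h2, mul_zero]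
        · refine sum_eq_zero fun L _ => ?_
          rw [if_neg (fun h => h1 h.1)]
    rw [sum_congr rfl this, sum_comm, mul_sum]
    refine sum_congr rfl fun R _ => ?_
    split_ifs with h1
    · rw [← mul_sum, ch_succ', mul_assoc]
    · simp
  rw [e1, e2, e3, ← sum_add_distrib, ← sum_add_distrib]
  refine sum_congr rfl fun T hT => ?_
  rw [mem_powerset] at hT
  have hUm : ∀ R ∈ wds U, ∀ a ∈ R, a < m :=
    fun R hR a ha => hA a (hU ((mem_of_mem_wds B hR).1 ha))
  by_cases h : T = ∅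
  · rw [if_pos h, if_pos h, if_pos h, add_zero, add_zero, HH, h, wds_empty B, sum_singleton,
      sdiff_empty]
    refine sum_congr rfl fun R hR => ?_
    rw [(B.right R m (hUm R hR) (wds_ne_nil B hU0 hR)).1,
      (B.right R m (hUm R hR) (wds_ne_nil B hU0 hR)).2]
  · rw [if_neg h, if_neg h, if_neg h, zero_add, ← sum_add_distrib, HH]
    refine sum_congr rfl fun L hL => ?_
    rw [← sum_add_distrib]
    refine sum_congr rfl fun R hR => ?_
    have hLm : ∀ a ∈ L, a < m :=
      fun a ha => hA a (sdiff_subset (hT ((mem_of_mem_wds B hL).1 ha)))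
    have hb := B.both L R m hLm (hUm R hR) (wds_ne_nil B h hL) (wds_ne_nil B hU0 hR)
    rw [hb.1, hb.2]
    have hLT : hd (srt L) ∈ T := hd_srt_mem B h hL
    have hRU : hd (srt R) ∈ U := hd_srt_mem B hU0 hR
    by_cases h2 : ∀ z ∈ (A \ U) \ T, z < hd (srt L)
    · rw [if_pos h2, if_pos h2]
      by_cases h3 : ∃ a ∈ L, hd (srt R) < a
      · rw [if_pos h3, if_neg, add_zero]
        · ring
        · rintro ⟨h4, _⟩
          obtain ⟨a, ha, hRa⟩ := h3
          have := h4 a (hT ((mem_of_mem_wds B hL).1 ha))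
          omega
      · rw [if_neg h3, if_pos]
        · ring
        · refine ⟨fun z hz => ?_, h2⟩
          push Not at h3
          have hTlt : ∀ a ∈ T, a < hd (srt R) := by
            intro a ha
            have h4 := h3 a ((mem_of_mem_wds B hL).2 ha)
            rcases h4.lt_or_eq with h5 | h5
            · exact h5
            · exfalso
              have h6 := (mem_sdiff.1 (hT ha)).2
              rw [h5] at h6
              exact h6 hRU
          by_cases hzT : z ∈ T
          · exact hTlt z hzT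
          · exact (h2 z (mem_sdiff.2 ⟨hz, hzT⟩)).trans (hTlt _ hLT)
    · rw [if_neg h2, if_neg h2, if_neg (fun h => h2 h.2), add_zero]

theorem ch_rec' (B : Base) (y : ℂ) (k : ℕ) (S : Finset ℕ) (m : ℕ) (hm : m ∈ S)
    (hmax : ∀ a ∈ S, a ≤ m) :
    ch y (k + 1) S = ch y k (S.erase m) + 2 * ch y (k + 1) (S.erase m)
      + y * ∑ T ∈ (S.erase m).powerset, ch y 1 T * ch y (k + 1) ((S.erase m) \ T)
      + (1 - y) * ch y (k + 2) (S.erase m) := by
  set A := S.erase m with hAdef
  have hA : ∀ a ∈ A, a < m := by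
    intro a ha
    rw [hAdef, mem_erase] at ha
    exact lt_of_le_of_ne (hmax a ha.2) ha.1
  have hS : S = insert m A := (insert_erase hm).symm
  rw [hS, step1 B y k A m hA]
  have h1 : ∀ U ∈ A.powerset, ∑ T ∈ (A \ U).powerset, HH y k m A T U =
      (if U = ∅ then ch y k A + ch y (k + 1) A else 0)
      + (if U = ∅ then 0 else ∑ R ∈ wds U, if ∀ z ∈ A \ U, z < hd (srt R) then
          y ^ des (srt R) * ch y k (A \ U) else 0)
      + y * (ch y 1 U * ch y (k + 1) (A \ U))
      + (1 - y) * (if U = ∅ then 0 else ∑ R ∈ wds U, if ∀ z ∈ A \ U, z < hd (srt R) then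
          y ^ des (srt R) * ch y (k + 1) (A \ U) else 0) := by
    intro U hU
    by_cases h : U = ∅
    · subst h
      rw [step2 B y k A m hA, ch_one_empty]
      simp
    · rw [step3 B y k A m hA U (mem_powerset.1 hU) h, if_neg h, if_neg h, if_neg h, zero_add]
  rw [sum_congr rfl h1, sum_add_distrib, sum_add_distrib, sum_add_distrib, ← mul_sum, ← mul_sum,
    ← ch_succ', ← ch_succ', sum_ite_eq', if_pos (empty_mem_powerset A)]
  ring

theorem ch_eq' (B : Base) (y : ℂ) (F : ℕ → ℕ → ℂ) (hF : Sys y F) (k : ℕ) (S : Finset ℕ) :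
    ch y k S = F k S.card := by
  induction hn : S.card using Nat.strong_induction_on generalizing k S with
  | _ n ih =>
    cases k with
    | zero =>
      rw [ch_zero]
      rcases Nat.eq_zero_or_pos n with h | h
      · rw [h] at hn ⊢
        rw [if_pos (card_eq_zero.1 hn), hF.h00]
      · obtain ⟨n', rfl⟩ : ∃ n', n = n' + 1 := ⟨n - 1, by omega⟩
        rw [if_neg, hF.h0]
        rintro rfl
        simp at hn
    | succ k =>
      rcases Nat.eq_zero_or_pos n with h | h
      · rw [h] at hn ⊢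
        rw [card_eq_zero.1 hn, ch_one_empty, hF.hk]
      · obtain ⟨n', rfl⟩ : ∃ n', n = n' + 1 := ⟨n - 1, by omega⟩
        have hne : S.Nonempty := card_pos.1 (by omega)
        have hm := S.max'_mem hne
        have hmax : ∀ a ∈ S, a ≤ S.max' hne := fun a ha => S.le_max' a ha
        have hc : (S.erase (S.max' hne)).card = n' := by
          rw [card_erase_of_mem hm, hn]
          rfl
        rw [ch_rec' B y k S _ hm hmax, hF.hrec, ih n' (by omega) k _ hc,
          ih n' (by omega) (k + 1) _ hc, ih n' (by omega) (k + 2) _ hc]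
        congr 2
        congr 1
        have h2 : ∀ T ∈ (S.erase (S.max' hne)).powerset,
            ch y 1 T * ch y (k + 1) ((S.erase (S.max' hne)) \ T) =
            F 1 T.card * F (k + 1) (n' - T.card) := by
          intro T hT
          rw [mem_powerset] at hT
          have hTc := card_le_card hT
          rw [hc] at hTc
          rw [ih T.card (by omega) 1 T rfl,
            ih (n' - T.card) (by omega) (k + 1) _ (by rw [card_sdiff_of_subset hT, hc])]
        rw [sum_congr rfl h2,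
          sum_powerset_apply_card (fun j => F 1 j * F (k + 1) (n' - j)), hc]
        refine sum_congr rfl fun j _ => ?_
        rw [nsmul_eq_mul]
        ring

theorem base : Base where
  perm := Pool.Agent.H143R2.Stk.srt_perm
  single := Pool.Agent.H143R2.Stk.srt_single
  left := Pool.Agent.H143R2.Stk.des_left
  right := Pool.Agent.H143R2.Stk.des_right
  both := Pool.Agent.H143R2.Stk.des_both
  mem := Pool.Agent.H409R2.Stk.mem_wds
  split := Pool.Agent.H409R2.Stk.sum_wds_split

theorem ch_rec (y : ℂ) (k : ℕ) (S : Finset ℕ) (m : ℕ) (hm : m ∈ S) (hmax : ∀ a ∈ S, a ≤ m) :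
    ch y (k + 1) S = ch y k (S.erase m) + 2 * ch y (k + 1) (S.erase m)
      + y * ∑ T ∈ (S.erase m).powerset, ch y 1 T * ch y (k + 1) ((S.erase m) \ T)
      + (1 - y) * ch y (k + 2) (S.erase m) := ch_rec' base y k S m hm hmax

theorem ch_eq (y : ℂ) (F : ℕ → ℕ → ℂ) (hF : Sys y F) (k : ℕ) (S : Finset ℕ) :
    ch y k S = F k S.card := ch_eq' base y F hF k S

theorem ch_one (y : ℂ) (S : Finset ℕ) (hS : S ≠ ∅) :
    ch y 1 S = ∑ π ∈ wds S, y ^ des (srt π) := ch_one' y S hS

end Pool.Agent.H682R2.Stk
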